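import Pool.Agent.E8helper19.LC.Stm

/-!
LC1 (MP_862eda_mp): chord and arc.
-/

set_option autoImplicit false

namespace Pool.Agent.E8helper52.LC

open MeasureTheory Filter Topology Set
open Pool.Agent.E8helper19.LC

/-- two unit vectors which are not opposite span a proper sector -/
theorem sector (e₁ e₂ : P) (h₁ : ‖e₁‖ = 1) (h₂ : ‖e₂‖ = 1) (hne : e₁ ≠ -e₂) :
    ∃ c : ℝ, 0 < c ∧ ∀ a b : ℝ, 0 ≤ a → 0 ≤ b → c * (a + b) ≤ ‖a • e₁ + b • e₂‖ := by
  have hp : -1 < inner ℝ e₁ e₂ := by
    have h3 : ‖e₁ + e₂‖ ^ 2 = ‖e₁‖ ^ 2 + 2 * inner ℝ e₁ e₂ + ‖e₂‖ ^ 2 := norm_add_sq_real e₁ e₂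
    have h4 : e₁ + e₂ ≠ 0 := fun h => hne (eq_neg_of_add_eq_zero_left h)
    have h5 : 0 < ‖e₁ + e₂‖ ^ 2 := by positivity
    rw [h₁, h₂] at h3
    nlinarith
  have hp1 : inner ℝ e₁ e₂ ≤ 1 := by
    have := real_inner_le_norm e₁ e₂
    rw [h₁, h₂] at this
    linarith
  set p : ℝ := inner ℝ e₁ e₂ with hpdef
  refine ⟨√((1 + p) / 2), Real.sqrt_pos.2 (by linarith), fun a b ha hb => ?_⟩
  have hsq : √((1 + p) / 2) ^ 2 = (1 + p) / 2 := Real.sq_sqrt (by linarith)
  have hn : ‖a • e₁ + b • e₂‖ ^ 2 = a ^ 2 + 2 * (a * b * p) + b ^ 2 := by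
    rw [norm_add_sq_real, norm_smul, norm_smul, h₁, h₂, inner_smul_left, inner_smul_right,
      ← hpdef, Real.norm_eq_abs, Real.norm_eq_abs, mul_one, mul_one, sq_abs, sq_abs]
    simp only [conj_trivial]
    ring
  have hmain : (√((1 + p) / 2) * (a + b)) ^ 2 ≤ ‖a • e₁ + b • e₂‖ ^ 2 := by
    rw [mul_pow, hsq, hn]
    nlinarith [mul_nonneg (by linarith : (0 : ℝ) ≤ 1 - p) (sq_nonneg (a - b))]
  have h0 : 0 ≤ √((1 + p) / 2) * (a + b) := by positivity
  exact (sq_le_sq₀ h0 (norm_nonneg _)).1 hmain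

theorem t_CHORD : S_CHORD := by
  intro γ L hγ hne
  have hL : 0 < L := hγ.pos
  obtain ⟨c₀, hc₀, hsec⟩ := sector (deriv γ L) (deriv γ (-L)) (hγ.unit L) (hγ.unit (-L)) hne
  have hcont : Continuous γ := hγ.smooth.continuous
  have hdiff : Differentiable ℝ γ := hγ.smooth.differentiable (by norm_num)
  have hdc : Continuous (deriv γ) := hγ.smooth.continuous_deriv (by norm_num)
  -- the broken line
  set β : ℝ → P := fun s => max s 0 • deriv γ L - max (-s) 0 • deriv γ (-L) with hβ
  have hβc : Continuous β := by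
    rw [hβ]
    fun_prop
  have hβd : ∀ s t, t ≤ s → c₀ * (s - t) ≤ ‖β s - β t‖ := by
    intro s t hts
    have h1 : β s - β t = (max s 0 - max t 0) • deriv γ L +
        (max (-t) 0 - max (-s) 0) • deriv γ (-L) := by
      simp only [hβ, sub_smul]
      abel
    have h2 : (max s 0 - max t 0) + (max (-t) 0 - max (-s) 0) = s - t := by
      rcases le_total s 0 with hs | hs <;> rcases le_total t 0 with ht | ht
      · rw [max_eq_right hs, max_eq_right ht, max_eq_left (by linarith), max_eq_left (by linarith)]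
        ring
      · rw [max_eq_right hs, max_eq_left ht, max_eq_right (by linarith), max_eq_left (by linarith)]
        ring
      · rw [max_eq_left hs, max_eq_right ht, max_eq_left (by linarith), max_eq_right (by linarith)]
        ring
      · rw [max_eq_left hs, max_eq_left ht, max_eq_right (by linarith), max_eq_right (by linarith)]
        ring
    rw [h1, ← h2]
    refine hsec _ _ ?_ ?_
    · exact sub_nonneg.2 (max_le_max hts le_rfl)
    · exact sub_nonneg.2 (max_le_max (by linarith) le_rfl)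
  -- the distance to the broken line
  obtain ⟨C₂, hC₂⟩ := (isCompact_Icc (a := -L) (b := L)).exists_bound_of_continuousOn
    ((hcont.sub hβc).continuousOn)
  have hC₂' : ∀ s, ‖γ s - β s‖ ≤ C₂ := by
    intro s
    by_cases hs1 : s ≤ -L
    · have h1 := hC₂ (-L) ⟨le_rfl, by linarith⟩
      have h2 : γ s - β s = γ (-L) - β (-L) := by
        rw [hγ.left s hs1]
        simp only [hβ]
        rw [max_eq_right (by linarith : s ≤ 0), max_eq_left (by linarith : (0 : ℝ) ≤ -s),
          max_eq_right (by linarith : -L ≤ 0), max_eq_left (by linarith : (0 : ℝ) ≤ - -L)]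
        module
      rw [h2]
      exact h1
    · by_cases hs2 : L ≤ s
      · have h1 := hC₂ L ⟨by linarith, le_rfl⟩
        have h2 : γ s - β s = γ L - β L := by
          rw [hγ.right s hs2]
          simp only [hβ]
          rw [max_eq_left (by linarith : (0 : ℝ) ≤ s), max_eq_right (by linarith : -s ≤ 0),
            max_eq_left (by linarith : (0 : ℝ) ≤ L), max_eq_right (by linarith : -L ≤ 0)]
          module
        rw [h2]
        exact h1
      · exact hC₂ s ⟨(not_le.1 hs1).le, (not_le.1 hs2).le⟩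
  have hC0 : 0 ≤ C₂ := (norm_nonneg _).trans (hC₂' 0)
  set R : ℝ := 4 * C₂ / c₀ with hR
  have hR0 : 0 ≤ R := by positivity
  set M : ℝ := L + R with hM
  -- the difference quotient
  set φ : ℝ × ℝ → P := fun z => ∫ u in (0 : ℝ)..1, deriv γ (z.2 + u • (z.1 - z.2)) with hφ
  have hφc : Continuous φ := by
    refine intervalIntegral.continuous_parametric_intervalIntegral_of_continuous' ?_ 0 1
    refine hdc.comp ?_
    fun_prop
  have hφe : ∀ s t : ℝ, (s - t) • φ (s, t) = γ s - γ t := by
    intro s t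
    have h1 := intervalIntegral.integral_unitInterval_deriv_eq_sub (𝕜 := ℝ) (f := γ)
      (f' := deriv γ) (z₀ := t) (z₁ := s - t) ((hdc.comp (by fun_prop)).continuousOn)
      (fun u _ => (hdiff _).hasDerivAt)
    rw [show t + (s - t) = s by ring] at h1
    exact h1
  have hφp : ∀ z, 0 < ‖φ z‖ := by
    rintro ⟨s, t⟩
    rw [norm_pos_iff]
    intro h0
    by_cases hst : s = t
    · have h1 : φ (s, t) = deriv γ t := by
        simp only [hφ, hst]
        simp
      rw [h1] at h0
      have := hγ.unit t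
      rw [h0, norm_zero] at this
      exact zero_ne_one this
    · have h1 := hφe s t
      rw [h0, smul_zero] at h1
      exact hst (hγ.inj (sub_eq_zero.1 h1.symm))
  have hK : IsCompact (Icc (-M) M ×ˢ Icc (-M) M) := isCompact_Icc.prod isCompact_Icc
  have hKn : (Icc (-M) M ×ˢ Icc (-M) M).Nonempty := ⟨(0, 0), by
    constructor <;> constructor <;> simp only <;> linarith⟩
  obtain ⟨z₀, hz₀, hmin⟩ := hK.exists_isMinOn hKn (hφc.norm.continuousOn)
  set m : ℝ := ‖φ z₀‖ with hm
  have hmp : 0 < m := hφp z₀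
  refine ⟨min (min (c₀ / 2) m) 1, by positivity, min_le_right _ _, ?_⟩
  have hcc : min (min (c₀ / 2) m) 1 ≤ c₀ / 2 := (min_le_left _ _).trans (min_le_left _ _)
  have hcm : min (min (c₀ / 2) m) 1 ≤ m := (min_le_left _ _).trans (min_le_right _ _)
  have hc1 : min (min (c₀ / 2) m) 1 ≤ 1 := min_le_right _ _
  set c : ℝ := min (min (c₀ / 2) m) 1 with hc
  have main : ∀ s t, t ≤ s → c * (s - t) ≤ ‖γ s - γ t‖ := by
    intro s t hts
    have hst0 : 0 ≤ s - t := by linarith
    by_cases hbig : R ≤ s - t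
    · have h1 := hβd s t hts
      have h2 : β s - β t = (γ s - γ t) - ((γ s - β s) - (γ t - β t)) := by abel
      have h3 : ‖β s - β t‖ ≤ ‖γ s - γ t‖ + (C₂ + C₂) := by
        rw [h2]
        refine (norm_sub_le _ _).trans ?_
        gcongr
        refine (norm_sub_le _ _).trans ?_
        exact add_le_add (hC₂' s) (hC₂' t)
      have h4 : 4 * C₂ ≤ c₀ * (s - t) := by
        rw [hR, div_le_iff₀ hc₀] at hbig
        linarith
      have h5 : c * (s - t) ≤ c₀ / 2 * (s - t) := by gcongr
      linarith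
    · have hbig' : s - t < R := not_le.1 hbig
      by_cases hr : L ≤ t
      · have h1 : γ s - γ t = (s - t) • deriv γ L := by
          rw [hγ.right s (hr.trans hts), hγ.right t hr]
          module
        rw [h1, norm_smul, hγ.unit, mul_one, Real.norm_eq_abs, abs_of_nonneg hst0]
        nlinarith
      · by_cases hl : s ≤ -L
        · have h1 : γ s - γ t = (s - t) • deriv γ (-L) := by
            rw [hγ.left s hl, hγ.left t (hts.trans hl)]
            module
          rw [h1, norm_smul, hγ.unit, mul_one, Real.norm_eq_abs, abs_of_nonneg hst0]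
          nlinarith
        · have hr' : t < L := not_le.1 hr
          have hl' : -L < s := not_le.1 hl
          have hmem : ((s, t) : ℝ × ℝ) ∈ Icc (-M) M ×ˢ Icc (-M) M := by
            refine ⟨⟨?_, ?_⟩, ⟨?_, ?_⟩⟩ <;> simp only [hM] <;> linarith
          have h1 : m ≤ ‖φ (s, t)‖ := hmin hmem
          rw [← hφe s t, norm_smul, Real.norm_eq_abs, abs_of_nonneg hst0, mul_comm]
          gcongr
          exact hcm.trans h1
  intro s t
  rcases le_total t s with h | h
  · rw [abs_of_nonneg (by linarith : 0 ≤ s - t)]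
    exact main s t h
  · rw [abs_sub_comm, norm_sub_rev, abs_of_nonneg (by linarith : 0 ≤ t - s)]
    exact main t s h

end Pool.Agent.E8helper52.LC
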